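import Mathlib

set_option autoImplicit false
set_option linter.unusedVariables false

namespace Pool.Agent.H.MP_54cd88_an

open Set Filter Topology MeasureTheory ProbabilityTheory

/-- the standard product measure on Cantor space -/
noncomputable def lam : Measure (ℕ → Bool) :=
  Measure.infinitePi fun _ => uniformOn (Set.univ : Set Bool)

/-- the atom of the `n`-th finite algebra containing `u` -/
def At (n : ℕ) (u : ℕ → Bool) : Set (ℕ → Bool) := {x | ∀ i ≤ n, x i = u i}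

noncomputable def phi (m : ℕ) (A : Set (ℕ → Bool)) : ℝ :=
  |lam.real (A ∩ {x | x m = false}) - lam.real (A ∩ {x | x m = true})|

/-- a subalgebra of the Borel algebra containing the clopen sets, with property (T) -/
def PT (𝓑 : BooleanSubalgebra (Set (ℕ → Bool))) : Prop :=
  (∀ A ∈ 𝓑, @MeasurableSet _ (borel _) A) ∧ (∀ A, IsClopen A → A ∈ 𝓑) ∧
    ∀ F : Set (Set (ℕ → Bool)), F.Finite → (∀ A ∈ F, A ∈ 𝓑) → ∀ ε : ℝ, 0 < ε →
      ∃ n : ℕ, 1 ≤ n ∧ ∀ A ∈ F, ∀ u,
        min (lam.real (A ∩ At n u)) (lam.real (At n u \ A)) ≤ ε * lam.real (At n u) / n ∧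
          ∀ m : ℕ, n < m → m * phi m (A ∩ At n u) ≤ ε * lam.real (At n u)

instance : IsProbabilityMeasure lam := by unfold lam; infer_instance

lemma br : borel (ℕ → Bool) = MeasurableSpace.pi := BorelSpace.measurable_eq.symm

lemma cyl (s : Finset ℕ) (u : ℕ → Bool) :
    lam.real {x | ∀ i ∈ s, x i = u i} = (1 / 2) ^ s.card := by
  have := Measure.infinitePi_pi (fun _ : ℕ => uniformOn (Set.univ : Set Bool)) (s := s)
    (t := fun i => {u i}) fun _ _ => measurableSet_singleton _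
  simp only [uniformOn_univ, Measure.count_singleton, Fintype.card_bool, Finset.prod_const] at this
  have h : lam {x | ∀ i ∈ s, x i = u i} = 2⁻¹ ^ s.card := by simpa [lam, Set.pi] using this
  simp [Measure.real, h]

lemma lam_At (n : ℕ) (u : ℕ → Bool) : lam.real (At n u) = (1 / 2) ^ (n + 1) := by
  rw [← Finset.card_range (n + 1), ← cyl _ u]
  simp [At, Nat.lt_succ_iff]

lemma At_clopen (n : ℕ) (u : ℕ → Bool) : IsClopen (At n u) := by
  have : At n u = ⋂ i ∈ Iic n, (fun x : ℕ → Bool => x i) ⁻¹' {u i} := by ext; simp [At]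
  rw [this]
  exact (finite_Iic n).isClopen_biInter fun i _ =>
    (isClopen_discrete _).preimage (continuous_apply i)

lemma V_clopen (m : ℕ) (b : Bool) : IsClopen {x : ℕ → Bool | x m = b} :=
  (isClopen_discrete {b}).preimage (continuous_apply m)

lemma clopen_det {A : Set (ℕ → Bool)} (hA : IsClopen A) :
    ∀ᶠ n in atTop, ∀ u, ∀ x ∈ At n u, x ∈ A ↔ u ∈ A := by
  have mono : Monotone fun n => {u | ∀ x ∈ At n u, x ∈ A ↔ u ∈ A} :=
    fun n m l u h x k => h x fun i j => k i (j.trans l)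
  obtain ⟨n, hn⟩ := isCompact_univ.elim_directed_cover (fun n => {u | ∀ x ∈ At n u, x ∈ A ↔ u ∈ A})
    (fun n => isOpen_iff_mem_nhds.2 fun u h =>
      mem_of_superset ((At_clopen n u).isOpen.mem_nhds fun _ _ => rfl) fun v k x l =>
      (h x fun i j => (l i j).trans (k i j)).trans (h v k).symm) (fun u _ => by
      have : {x | x ∈ A ↔ u ∈ A} ∈ nhds u := by
        by_cases c : u ∈ A
        · simpa [c] using hA.isOpen.mem_nhds c
        · exact mem_of_superset (hA.compl.isOpen.mem_nhds c) fun x h => iff_of_false h c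
      rw [nhds_pi, Filter.mem_pi] at this
      obtain ⟨I, i1, t, i2, i3⟩ := this
      obtain ⟨n, hn⟩ := i1.bddAbove
      exact mem_iUnion.2 ⟨n, fun x k => i3 fun i j => k i (hn j) ▸ mem_of_mem_nhds (i2 i)⟩)
    mono.directed_le
  exact (eventually_ge_atTop n).mono fun m l u => mono l (hn (mem_univ u))

def flp (m : ℕ) (x : ℕ → Bool) : ℕ → Bool := fun i => if i = m then !x i else x i

lemma flp_meas (m : ℕ) : Measurable (flp m) :=
  measurable_pi_lambda _ fun i =>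
    (measurable_of_countable fun b : Bool => if i = m then !b else b).comp (measurable_pi_apply i)

lemma flp_mp (m : ℕ) : MeasurePreserving (flp m) lam lam := by
  refine ⟨flp_meas m, ?_⟩
  refine (Measure.infinitePi_map_pi (fun _ : ℕ => uniformOn (Set.univ : Set Bool))
    (f := fun i b => if i = m then !b else b) fun _ => measurable_of_countable _).trans ?_
  unfold lam
  congr 1; funext i
  split_ifs
  · refine Measure.ext_of_singleton fun b => ?_
    rw [Measure.map_apply (measurable_of_countable _) (measurableSet_singleton _)]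
    have : (fun b : Bool => !b) ⁻¹' {b} = {!b} := by ext c; cases b <;> cases c <;> simp
    rw [this]; simp only [uniformOn_univ, Measure.count_singleton]
  · simp

lemma flp_flp (m : ℕ) (x : ℕ → Bool) : flp m (flp m x) = x := by
  funext i; by_cases h : i = m <;> simp [flp, h]

lemma phi_le {m : ℕ} {B R : Set (ℕ → Bool)} (hB : MeasurableSet B) (hR : MeasurableSet R)
    (h : ∀ x, x ∉ R → flp m x ∉ R → x ∈ B → flp m x ∈ B) : phi m B ≤ 2 * lam.real R := by
  have key : ∀ b, lam.real (B ∩ {x | x m = b}) ≤ lam.real (B ∩ {x | x m = !b}) + 2 * lam.real R := by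
    intro b
    have h1 : B ∩ {x | x m = b} ⊆ flp m ⁻¹' (B ∩ {x | x m = !b}) ∪ (R ∪ flp m ⁻¹' R) := by
      rintro x ⟨h1, h2⟩
      by_contra hc
      simp only [mem_union, mem_preimage, not_or] at hc
      exact hc.1 ⟨h x hc.2.1 hc.2.2 h1, by simpa [flp] using h2⟩
    have h2 := (flp_mp m).measureReal_preimage
      (hB.inter (V_clopen m (!b)).isOpen.measurableSet).nullMeasurableSet
    have h3 := (flp_mp m).measureReal_preimage hR.nullMeasurableSet
    have h4 := (measureReal_mono (μ := lam) h1).trans (measureReal_union_le _ _)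
    have h5 := measureReal_union_le (μ := lam) R (flp m ⁻¹' R)
    linarith
  have h1 := key false
  have h2 := key true
  simp only [Bool.not_false, Bool.not_true] at h1 h2
  rw [phi, abs_le]; constructor <;> linarith

/-- the cylinders -/
def U (j : ℕ) : Set (ℕ → Bool) := At (4 ^ j) fun i => decide (i = j)

def W (S : Set ℕ) : Set (ℕ → Bool) := ⋃ j ∈ S, U j

lemma le4 (j : ℕ) : j < 4 ^ j := Nat.lt_pow_self (by norm_num)

lemma U_disj {i j : ℕ} {x : ℕ → Bool} (hi : x ∈ U i) (hj : x ∈ U j) : i = j := by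
  rcases le_total i j with h | h
  · have h1 := hi i (le4 i).le
    have h2 := hj i (h.trans (le4 j).le)
    simpa [h1] using h2
  · have h1 := hj j (le4 j).le
    have h2 := hi j (h.trans (le4 i).le)
    simpa [h1, eq_comm] using h2

lemma W_meas (S : Set ℕ) : MeasurableSet (W S) :=
  .biUnion S.to_countable fun j _ => (At_clopen _ _).isOpen.measurableSet

lemma W_le {S : Set ℕ} {j : ℕ} {c : ℝ} (hS : ∀ i ∈ S, j < i ∧ c ≤ 4 ^ i) (hc : 0 < c) :
    c * lam.real (W S) ≤ (1 / 2) ^ j * lam.real (U j) := by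
  classical
  obtain ⟨b, hb⟩ : ∃ b, b = (1 / 2) ^ j * lam.real (U j) / c := ⟨_, rfl⟩
  have hb0 : 0 ≤ b := by rw [hb]; positivity
  rw [mul_comm, ← le_div_iff₀ hc, ← hb]
  have h1 : W S ⊆ ⋃ t : ℕ, if t + j + 1 ∈ S then U (t + j + 1) else ∅ := by
    intro x hx
    obtain ⟨i, hi, hx⟩ := mem_iUnion₂.1 hx
    obtain ⟨t, rfl⟩ := Nat.exists_eq_add_of_lt (hS i hi).1
    rw [add_comm j] at hi hx
    exact mem_iUnion.2 ⟨t, by simpa [hi] using hx⟩
  refine ENNReal.toReal_le_of_le_ofReal hb0 ((measure_mono h1).trans ((measure_iUnion_le _).trans ?_))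
  rw [← tsum_geometric_two' b, ENNReal.ofReal_tsum_of_nonneg (fun _ => by positivity)
    (summable_geometric_two' b)]
  refine ENNReal.tsum_le_tsum fun t => ?_
  split_ifs with h
  · rw [← ENNReal.ofReal_toReal (measure_ne_top lam _)]
    refine ENNReal.ofReal_le_ofReal ?_
    have h2 := (hS _ h).2
    have h3 : 3 * (t + j + 1) + 4 ^ j ≤ 4 ^ (t + j + 1) := by
      have := le4 (t + j)
      have : 4 ^ j ≤ 4 ^ (t + j) := Nat.pow_le_pow_right (by norm_num) (by omega)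
      rw [pow_succ]; omega
    obtain ⟨d, hd⟩ := Nat.exists_eq_add_of_le h3
    change lam.real _ ≤ _
    rw [hb, U, U, lam_At, lam_At, hd, div_div, div_div, le_div_iff₀ (by positivity)]
    have h4 : (4 : ℝ) ^ (t + j + 1) = 2 ^ (t + j + 1) * 2 ^ (t + j + 1) := by
      rw [← mul_pow]; norm_num
    have h5 : ((1 : ℝ) / 2) ^ d ≤ 1 := pow_le_one₀ (by norm_num) (by norm_num)
    calc _ ≤ (1 / 2 : ℝ) ^ (3 * (t + j + 1) + 4 ^ j + d + 1) *
          (2 ^ (t + j + 1) * 2 ^ (t + j + 1) * (2 * 2 ^ t)) := by rw [← h4]; gcongr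
      _ = (1 / 2) ^ j * (1 / 2) ^ (4 ^ j + 1) * (1 / 2) ^ d := by
        simp only [pow_add, pow_mul', one_div, inv_pow]; field_simp
      _ ≤ _ := mul_le_of_le_one_right (by positivity) h5
  · simp

def Gd (j : ℕ) (A : Set (ℕ → Bool)) : Prop :=
  (∀ y, ∀ x ∈ At (4 ^ j) y, x ∉ W (Ioi j) → y ∉ W (Ioi j) → (x ∈ A ↔ y ∈ A)) ∧
    ∀ i, j < i → ∀ x ∈ U i, ∀ y ∈ U i, (x ∈ A ↔ y ∈ A)

def B0 : BooleanSubalgebra (Set (ℕ → Bool)) where
  carrier := {A | MeasurableSet A ∧ ∀ᶠ j in atTop, Gd j A}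
  supClosed' := fun A hA B hB => ⟨hA.1.union hB.1, (hA.2.and hB.2).mono fun j h =>
    ⟨fun y x a b c => or_congr (h.1.1 y x a b c) (h.2.1 y x a b c),
      fun i a x b y c => or_congr (h.1.2 i a x b y c) (h.2.2 i a x b y c)⟩⟩
  infClosed' := fun A hA B hB => ⟨hA.1.inter hB.1, (hA.2.and hB.2).mono fun j h =>
    ⟨fun y x a b c => and_congr (h.1.1 y x a b c) (h.2.1 y x a b c),
      fun i a x b y c => and_congr (h.1.2 i a x b y c) (h.2.2 i a x b y c)⟩⟩
  compl_mem' := fun hA => ⟨hA.1.compl, hA.2.mono fun j h =>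
    ⟨fun y x a b c => not_congr (h.1 y x a b c), fun i a x b y c => not_congr (h.2 i a x b y c)⟩⟩
  bot_mem' := ⟨MeasurableSet.empty, Eventually.of_forall fun j =>
    ⟨fun _ _ _ _ _ => Iff.rfl, fun _ _ _ _ _ _ => Iff.rfl⟩⟩

lemma W_mem (S : Set ℕ) : W S ∈ B0 := by
  refine ⟨W_meas S, Eventually.of_forall fun j => ⟨?_, fun i _ x hx y hy => ?_⟩⟩
  · have : ∀ y, ∀ x ∈ At (4 ^ j) y, x ∉ W (Ioi j) → x ∈ W S → y ∈ W S := fun y x h1 h2 h3 => by
      obtain ⟨i, hi, hx⟩ := mem_iUnion₂.1 h3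
      have : i ≤ j := not_lt.1 fun h => h2 (mem_iUnion₂.2 ⟨i, h, hx⟩)
      exact mem_iUnion₂.2 ⟨i, hi, fun l hl =>
        (h1 l (hl.trans (Nat.pow_le_pow_right (by norm_num) this))).symm.trans (hx l hl)⟩
    exact fun y x h1 h2 h3 => ⟨this y x h1 h2, this x y (fun l hl => (h1 l hl).symm) h3⟩
  · simp only [W, mem_iUnion₂]
    exact ⟨fun ⟨l, h1, h2⟩ => ⟨l, h1, U_disj hx h2 ▸ hy⟩, fun ⟨l, h1, h2⟩ => ⟨l, h1, U_disj hy h2 ▸ hx⟩⟩

lemma B0_PT : PT B0 := by
  refine ⟨fun A hA => br ▸ hA.1, fun A hA => ⟨hA.isOpen.measurableSet, ?_⟩, fun F hF hF' ε hε => ?_⟩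
  · obtain ⟨n, hn⟩ := eventually_atTop.1 (clopen_det hA)
    refine (eventually_ge_atTop n).mono fun j hj => ⟨fun y x h _ _ =>
      hn _ (hj.trans (le4 j).le) y x h, fun i hi x hx y hy =>
      hn _ ((hj.trans hi.le).trans (le4 i).le) y x fun l hl => (hx l hl).trans (hy l hl).symm⟩
  have h0 : ∀ᶠ j : ℕ in atTop, ((1 : ℝ) / 2) ^ j < ε / 2 :=
    (tendsto_pow_atTop_nhds_zero_of_lt_one (by norm_num) (by norm_num)).eventually_lt_const
      (by linarith)
  obtain ⟨j, hj, hj'⟩ := (h0.and ((eventually_all_finite hF).2 fun A hA => (hF' A hA).2)).exists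
  have hU : ∀ u, lam.real (U j) = lam.real (At (4 ^ j) u) := fun u => by rw [U, lam_At, lam_At]
  have hp : ∀ u, 0 ≤ lam.real (At (4 ^ j) u) := fun u => measureReal_nonneg
  refine ⟨4 ^ j, Nat.one_le_pow _ _ (by norm_num), fun A hA u => ⟨?_, fun m hm => ?_⟩⟩
  · have h1 := W_le (S := Ioi j) (j := j) (c := ((4 ^ j : ℕ) : ℝ)) (fun i hi => ⟨hi, by
      push_cast; exact pow_le_pow_right₀ (by norm_num) (le_of_lt hi)⟩) (by positivity)
    have h2 : lam.real (W (Ioi j)) ≤ ε * lam.real (At (4 ^ j) u) / (4 ^ j : ℕ) := by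
      rw [le_div_iff₀ (by positivity)]; rw [hU u] at h1; nlinarith [hp u]
    refine le_trans ?_ h2
    by_cases h : A ∩ At (4 ^ j) u ⊆ W (Ioi j)
    · exact (min_le_left _ _).trans (measureReal_mono h)
    · obtain ⟨y, hy, hy'⟩ := not_subset.1 h
      refine (min_le_right _ _).trans (measureReal_mono fun x hx => by_contra fun hc => hx.2 ?_)
      exact ((hj' A hA).1 y x (fun l hl => (hx.1 l hl).trans (hy.2 l hl).symm) hc hy').2 hy.1
  · have hm0 : (0 : ℝ) < m := by exact_mod_cast lt_of_le_of_lt (Nat.zero_le _) hm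
    have h1 := W_le (S := {i | j < i ∧ m ≤ 4 ^ i}) (j := j) (c := m)
      (fun i hi => ⟨hi.1, by exact_mod_cast hi.2⟩) hm0
    have hf : ∀ {k : ℕ} {x v : ℕ → Bool}, k < m → x ∈ At k v → flp m x ∈ At k v :=
      fun h hx l hl => by rw [← hx l hl, flp, if_neg (by omega)]
    have h2 := phi_le (m := m) ((hF' A hA).1.inter (At_clopen (4 ^ j) u).isOpen.measurableSet)
      (W_meas {i | j < i ∧ m ≤ 4 ^ i}) fun x a b hx => ⟨?_, hf hm hx.2⟩
    · rw [hU u] at h1; nlinarith [hp u]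
    by_cases c : x ∈ W (Ioi j)
    · obtain ⟨i, hi, hx'⟩ := mem_iUnion₂.1 c
      exact ((hj' A hA).2 i hi x hx' _
        (hf (not_le.1 fun h => a (mem_iUnion₂.2 ⟨i, ⟨hi, h⟩, hx'⟩)) hx')).1 hx.1
    by_cases c' : flp m x ∈ W (Ioi j)
    · obtain ⟨i, hi, hx'⟩ := mem_iUnion₂.1 c'
      have := hf (not_le.1 fun h => b (mem_iUnion₂.2 ⟨i, ⟨hi, h⟩, hx'⟩)) hx'
      rw [flp_flp] at this
      exact absurd (mem_iUnion₂.2 ⟨i, hi, this⟩) c
    · exact ((hj' A hA).1 x _ (hf hm fun _ _ => rfl) c' c).2 hx.1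

lemma ex_max : ∃ 𝓑, B0 ≤ 𝓑 ∧ Maximal PT 𝓑 := by
  refine zorn_le_nonempty₀ {𝓑 | PT 𝓑} (fun c c1 c2 B hB => ?_) _ B0_PT
  refine ⟨{ carrier := {A | ∃ a ∈ c, A ∈ a}
            supClosed' := fun s ⟨a, i, j⟩ t ⟨b, k, l⟩ => ?_
            infClosed' := fun s ⟨a, i, j⟩ t ⟨b, k, l⟩ => ?_
            compl_mem' := fun ⟨a, i, j⟩ => ⟨a, i, BooleanSubalgebra.compl_mem j⟩
            bot_mem' := ⟨B, hB, BooleanSubalgebra.bot_mem⟩ },
    ⟨fun _ ⟨a, i, j⟩ => (c1 i).1 _ j, fun A h => ⟨B, hB, (c1 hB).2.1 A h⟩, fun F f1 f2 => ?_⟩,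
    fun a i A j => ⟨a, i, j⟩⟩
  · rcases c2.total i k with h | h
    exacts [⟨b, k, BooleanSubalgebra.sup_mem (h j) l⟩, ⟨a, i, BooleanSubalgebra.sup_mem j (h l)⟩]
  · rcases c2.total i k with h | h
    exacts [⟨b, k, BooleanSubalgebra.inf_mem (h j) l⟩, ⟨a, i, BooleanSubalgebra.inf_mem j (h l)⟩]
  · have : ∃ a ∈ c, ∀ A ∈ F, A ∈ a := by
      induction F, f1 using Set.Finite.induction_on with
      | empty => exact ⟨B, hB, by simp⟩
      | insert _ _ ih =>
        obtain ⟨a, i, j⟩ := ih fun A h => f2 A (Or.inr h)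
        obtain ⟨b, k, l⟩ := f2 _ (Or.inl rfl)
        rcases c2.total i k with h | h
        · exact ⟨b, k, forall_mem_insert.2 ⟨l, fun A hA => h (j A hA)⟩⟩
        · exact ⟨a, i, forall_mem_insert.2 ⟨h l, j⟩⟩
    obtain ⟨a, i, j⟩ := this
    exact (c1 i).2.2 F f1 j

end Pool.Agent.H.MP_54cd88_an
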