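import Pool.Agent.H.MP_54cd88_an.A

set_option autoImplicit false
set_option linter.unusedVariables false

namespace Pool.Agent.H.MP_54cd88_an

open Set Filter Topology MeasureTheory

/-- the Stone space of a Boolean algebra -/
def St (A : Type) [BooleanAlgebra A] : Type := BoundedLatticeHom A Bool

noncomputable instance (A : Type) [BooleanAlgebra A] : TopologicalSpace (St A) :=
  TopologicalSpace.induced (fun (f : BoundedLatticeHom A Bool) (a : A) => f a) inferInstance

/-- `C(St A)` is a Grothendieck space -/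
def Groth (A : Type) [BooleanAlgebra A] : Prop :=
  ∀ (μ : ℕ → StrongDual ℝ (BoundedContinuousFunction (St A) ℝ))
    (ν : StrongDual ℝ (BoundedContinuousFunction (St A) ℝ)),
    (∀ f, Tendsto (fun n => μ n f) atTop (𝓝 (ν f))) →
      ∀ Φ : StrongDual ℝ (StrongDual ℝ (BoundedContinuousFunction (St A) ℝ)),
        Tendsto (fun n => Φ (μ n)) atTop (𝓝 (Φ ν))

noncomputable def nu (m : ℕ) (A : Set (ℕ → Bool)) : ℝ :=
  lam.real (A ∩ {x | x m = false}) - lam.real (A ∩ {x | x m = true})

lemma nu_add (m : ℕ) (B : Set (ℕ → Bool)) {T : Set (ℕ → Bool)} (hT : MeasurableSet T) :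
    nu m B = nu m (B ∩ T) + nu m (B \ T) := by
  have := fun b => measureReal_inter_add_sdiff (μ := lam) (s := B ∩ {x | x m = b}) hT
  have e1 : ∀ b, B ∩ {x | x m = b} ∩ T = B ∩ T ∩ {x | x m = b} := fun b => inter_right_comm _ _ _
  have e2 : ∀ b, (B ∩ {x | x m = b}) \ T = B \ T ∩ {x | x m = b} := fun b => by
    ext; simp; tauto
  simp only [e1, e2] at this
  simp only [nu]; linarith [this true, this false]

lemma nu_le (m : ℕ) (B : Set (ℕ → Bool)) : |nu m B| ≤ lam.real B := by
  have := fun b => measureReal_mono (μ := lam) (inter_subset_left (s := B) (t := {x | x m = b}))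
  have h := fun b => measureReal_nonneg (μ := lam) (s := B ∩ {x | x m = b})
  rw [nu, abs_le]; constructor <;> linarith [this true, this false, h true, h false]

lemma nu_tend {𝓑 : BooleanSubalgebra (Set (ℕ → Bool))} (h : PT 𝓑) {A : Set (ℕ → Bool)}
    (hA : A ∈ 𝓑) {ε : ℝ} (hε : 0 < ε) : ∃ n : ℕ, ∀ m, n < m → m * |nu m A| ≤ ε := by
  obtain ⟨n, -, hn⟩ := h.2.2 {A} (finite_singleton A) (by simpa using hA) ε hε
  refine ⟨n, fun m hm => ?_⟩
  let e : (Fin (n + 1) → Bool) → ℕ → Bool := fun v i => if h : i < n + 1 then v ⟨i, h⟩ else false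
  have key : ∀ T, ∑ v, lam.real (T ∩ At n (e v)) = lam.real T := fun T => by
    have h1 : ∀ v, (fun (x : ℕ → Bool) (i : Fin (n + 1)) => x i) ⁻¹' {v} = At n (e v) := fun v => by
      ext x
      simp only [mem_preimage, mem_singleton_iff, At, mem_ofPred_eq, e]
      exact ⟨fun h i hi => by simp [← h, Nat.lt_succ_of_le hi],
        fun h => funext fun i => by rw [h i (Nat.lt_succ_iff.1 i.2), dif_pos i.2]⟩
    have := sum_measureReal_preimage_singleton (μ := lam.restrict T) Finset.univ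
      (f := fun (x : ℕ → Bool) (i : Fin (n + 1)) => x i)
      (fun v _ => h1 v ▸ (At_clopen _ _).isOpen.measurableSet)
    simp only [h1, Finset.coe_univ, preimage_univ, measureReal_restrict_apply_univ] at this
    rw [← this]
    exact Finset.sum_congr rfl fun v _ => by
      rw [measureReal_restrict_apply (At_clopen _ _).isOpen.measurableSet, inter_comm]
  have h1 : nu m A = ∑ v, nu m (A ∩ At n (e v)) := by
    simp only [nu, Finset.sum_sub_distrib]
    rw [← key (A ∩ {x | x m = false}), ← key (A ∩ {x | x m = true})]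
    simp only [inter_right_comm A _ (At n _)]
  calc m * |nu m A| ≤ m * ∑ v, |nu m (A ∩ At n (e v))| := by
        rw [h1]; gcongr; exact Finset.abs_sum_le_sum_abs _ _
    _ ≤ ∑ v, ε * lam.real (univ ∩ At n (e v)) := by
        rw [Finset.mul_sum]
        exact Finset.sum_le_sum fun v _ => by
          rw [univ_inter]; exact (hn A rfl (e v)).2 m hm
    _ = ε := by rw [← Finset.mul_sum, key]; simp

def M (j : ℕ) : ℕ := 2 ^ (4 ^ j + 1)

lemma M_gt (j : ℕ) : 4 ^ j < M j := (Nat.lt_succ_self _).trans (Nat.lt_pow_self (by norm_num))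

lemma M_mul (j : ℕ) : M j * lam.real (U j) = 1 := by
  rw [U, lam_At, M]; push_cast; rw [← mul_pow]; simp

lemma nu_null {𝓑 : BooleanSubalgebra (Set (ℕ → Bool))} (h : PT 𝓑) (h0 : B0 ≤ 𝓑)
    {A : Set (ℕ → Bool)} (hA : A ∈ 𝓑) :
    Tendsto (fun j => M j * nu (M j) (A ∩ U j)) atTop (𝓝 0) := by
  rw [Metric.tendsto_nhds]
  by_contra hc
  push Not at hc
  obtain ⟨δ, hδ, hc⟩ := hc
  have hW : ∀ S, ∃ n : ℕ, ∀ m, n < m → m * |nu m (A ∩ W S)| ≤ δ / 4 := fun S =>
    nu_tend h (BooleanSubalgebra.inf_mem hA (h0 (W_mem S))) (by linarith)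
  have h1 : ∀ s : Finset ℕ, ∃ j, δ ≤ M j * |nu (M j) (A ∩ U j)| ∧ (∀ i ∈ s, i < j) ∧
      M j * |nu (M j) (A ∩ W s)| ≤ δ / 4 ∧ ((1 : ℝ) / 2) ^ j < δ / 4 := fun s => by
    obtain ⟨n, hn⟩ := hW s
    obtain ⟨j, a, b, c, d⟩ := (hc.and_eventually
      (((eventually_all_finset s).2 fun i _ => eventually_gt_atTop i).and
      ((eventually_ge_atTop n).and ((tendsto_pow_atTop_nhds_zero_of_lt_one (r := (1 : ℝ) / 2)
        (by norm_num) (by norm_num)).eventually_lt_const (by linarith : 0 < δ / 4))))).exists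
    exact ⟨j, by simpa [abs_mul] using a, b, hn _ (c.trans_lt ((le4 j).trans (M_gt j))), d⟩
  choose g g1 g2 g3 g4 using h1
  let s : ℕ → Finset ℕ := fun r => Nat.rec ∅ (fun _ t => insert (g t) t) r
  have hs : ∀ r, s (r + 1) = insert (g (s r)) (s r) := fun _ => rfl
  have hmono : StrictMono fun r => g (s r) :=
    strictMono_nat_of_lt_succ fun r => g2 _ _ (by rw [hs]; exact Finset.mem_insert_self _ _)
  have hs2 : ∀ r i, i ∈ s r ↔ ∃ l < r, g (s l) = i := fun r i => by
    induction r with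
    | zero => simp [s]
    | succ r ih => rw [hs, Finset.mem_insert, ih, Nat.exists_lt_succ_right, or_comm, eq_comm]
  obtain ⟨n, hn⟩ := hW (range fun r => g (s r))
  obtain ⟨j, hj⟩ : ∃ j, j = g (s n) := ⟨_, rfl⟩
  have h2 := hn (M j) ((hj ▸ hmono.id_le n : n ≤ j).trans_lt ((le4 j).trans (M_gt j)))
  have e1 : A ∩ W (range fun r => g (s r)) ∩ U j = A ∩ U j := by
    rw [inter_assoc, inter_eq_right.2 (show U j ⊆ W _ from fun x hx =>
      mem_iUnion₂.2 ⟨j, mem_range.2 ⟨n, hj.symm⟩, hx⟩)]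
  have e2 : ((A ∩ W (range fun r => g (s r))) \ U j) ∩ W (SetLike.coe (s n)) = A ∩ W (SetLike.coe (s n)) := by
    refine Subset.antisymm (fun x hx => ⟨hx.1.1.1, hx.2⟩) fun x hx => ?_
    obtain ⟨i, hi, hx'⟩ := mem_iUnion₂.1 hx.2
    obtain ⟨l, -, hl⟩ := (hs2 n i).1 hi
    exact ⟨⟨⟨hx.1, mem_iUnion₂.2 ⟨i, ⟨l, hl⟩, hx'⟩⟩,
      fun hc => (g2 _ i hi).ne (hj ▸ U_disj hx' hc)⟩, hx.2⟩
  have e3 : ((A ∩ W (range fun r => g (s r))) \ U j) \ W (SetLike.coe (s n)) ⊆ W (Ioi j) := by
    rintro x ⟨⟨⟨-, h1⟩, h2⟩, h3⟩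
    obtain ⟨i, ⟨l, rfl⟩, hx'⟩ := mem_iUnion₂.1 h1
    refine mem_iUnion₂.2 ⟨_, ?_, hx'⟩
    rcases lt_trichotomy l n with h | rfl | h
    · exact absurd (mem_iUnion₂.2 ⟨_, (hs2 n _).2 ⟨l, h, rfl⟩, hx'⟩) h3
    · exact absurd (hj ▸ hx') h2
    · exact hj ▸ hmono h
  rw [nu_add _ _ (T := U j) (At_clopen _ _).isOpen.measurableSet, e1,
    nu_add _ (_ \ U j) (W_meas (SetLike.coe (s n))), e2] at h2
  have h3 := (nu_le (M j) _).trans (measureReal_mono e3)
  have h4 := W_le (S := Ioi j) (j := j) (c := 1) (fun i hi => ⟨hi, one_le_pow₀ (by norm_num)⟩) one_pos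
  have h5 := g1 (s n)
  have h6 := g3 (s n)
  have h7 := g4 (s n)
  rw [← hj] at h5 h6 h7
  have h8 := M_mul j
  have h9 : (0 : ℝ) ≤ M j := Nat.cast_nonneg _
  generalize nu (M j) (A ∩ U j) = a at *
  generalize nu (M j) (A ∩ W (SetLike.coe (s n))) = b at *
  generalize nu (M j) (((A ∩ W (range fun r => g (s r))) \ U j) \ W (SetLike.coe (s n))) = c at *
  have h10 : |a| ≤ |a + (b + c)| + |b| + |c| := by
    have := abs_sub (a + (b + c)) (b + c)
    have := abs_add_le b c
    simp only [add_sub_cancel_right] at *; linarith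
  have h11 : M j * |c| ≤ (1 / 2) ^ j := by
    calc _ ≤ M j * ((1 / 2) ^ j * lam.real (U j)) := by gcongr; linarith
      _ = _ := by rw [mul_left_comm, h8, mul_one]
  nlinarith [mul_le_mul_of_nonneg_left h10 h9]

section
variable {A : Type} [BooleanAlgebra A]

def ev (p : St A) : BoundedLatticeHom A Bool := p

instance : CompactSpace (St A) := by
  have hi : IsInducing fun (f : St A) (a : A) => ev f a := ⟨rfl⟩
  refine ⟨hi.isCompact_iff.2 (IsClosed.isCompact ?_)⟩
  have : (fun (f : St A) (a : A) => ev f a) '' univ =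
      {p | p ⊤ = ⊤} ∩ {p | p ⊥ = ⊥} ∩ ⋂ a, ⋂ b, {p | p (a ⊔ b) = p a ⊔ p b} ∩
        {p | p (a ⊓ b) = p a ⊓ p b} := by
    ext p
    simp only [image_univ, mem_range, mem_inter_iff, mem_iInter, mem_ofPred_eq]
    refine ⟨?_, fun ⟨⟨a, b⟩, c⟩ => ⟨BoundedLatticeHom.mk
      ⟨⟨p, fun x y => (c x y).1⟩, fun x y => (c x y).2⟩ a b, rfl⟩⟩
    rintro ⟨f, rfl⟩
    exact ⟨⟨TopHomClass.map_top (ev f), BotHomClass.map_bot (ev f)⟩, fun a b => ⟨SupHomClass.map_sup _ a b, InfHomClass.map_inf _ a b⟩⟩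
  rw [this]
  refine ((isClosed_eq (by fun_prop) (by fun_prop)).inter
    (isClosed_eq (by fun_prop) (by fun_prop))).inter (isClosed_iInter fun a => isClosed_iInter
      fun b => (isClosed_eq (by fun_prop) ?_).inter (isClosed_eq (by fun_prop) ?_))
  · exact (continuous_of_discreteTopology (f := fun q : Bool × Bool => q.1 ⊔ q.2)).comp
      (f := fun p : A → Bool => (p a, p b)) (by fun_prop)
  · exact (continuous_of_discreteTopology (f := fun q : Bool × Bool => q.1 ⊓ q.2)).comp
      (f := fun p : A → Bool => (p a, p b)) (by fun_prop)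

noncomputable def chi (a : A) : C(St A, ℝ) :=
  ⟨fun p => if ev p a then 1 else 0,
    (continuous_of_discreteTopology (f := fun b : Bool => if b then (1 : ℝ) else 0)).comp
      ((continuous_apply a).comp continuous_induced_dom)⟩

lemma chi_dense (f : St A → ℝ) (hf : Continuous f) {ε : ℝ} (hε : 0 < ε) :
    ∃ g ∈ Submodule.span ℝ (range (chi (A := A))), ∀ p, ‖g p - f p‖ < ε := by
  obtain ⟨g, hg⟩ := ContinuousMap.exists_mem_subalgebra_near_continuous_of_separatesPoints
    (Algebra.adjoin ℝ (range (chi (A := A)))) (fun p q hpq => by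
      obtain ⟨a, ha⟩ := DFunLike.ne_iff.1 (show ev p ≠ ev q from hpq)
      refine ⟨_, ⟨chi a, Algebra.subset_adjoin ⟨a, rfl⟩, rfl⟩, ?_⟩
      simp only [chi, ContinuousMap.coe_mk]
      revert ha
      cases ev p a <;> cases ev q a <;> simp)
    f hf ε hε
  refine ⟨g, ?_, hg⟩
  have := Algebra.adjoin_eq_span_of_subset ℝ (s := range (chi (A := A))) fun x hx => by
    refine Submodule.subset_span ?_
    induction hx using Submonoid.closure_induction with
    | mem x h => exact h
    | one => exact ⟨⊤, by ext p; simp [chi]⟩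
    | mul x y _ _ a b =>
      obtain ⟨a, rfl⟩ := a
      obtain ⟨b, rfl⟩ := b
      refine ⟨a ⊓ b, ?_⟩
      ext p
      simp only [chi, ContinuousMap.coe_mk, InfHomClass.map_inf, ContinuousMap.mul_apply]
      cases ev p a <;> cases ev p b <;> simp
  rw [← this]; exact g.2
end

open Classical in
noncomputable def pt (𝓑 : BooleanSubalgebra (Set (ℕ → Bool))) (x : ℕ → Bool) : St 𝓑 :=
  BoundedLatticeHom.mk ⟨⟨fun a => decide (x ∈ a.1), fun a b => by
    by_cases h : x ∈ a.1 <;> by_cases h' : x ∈ b.1 <;> simp [h, h']⟩, fun a b => by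
    by_cases h : x ∈ a.1 <;> by_cases h' : x ∈ b.1 <;> simp [h, h']⟩ (by simp) (by simp)

lemma chi_pt {𝓑 : BooleanSubalgebra (Set (ℕ → Bool))} (a : 𝓑) (x : ℕ → Bool) :
    chi a (pt 𝓑 x) = a.1.indicator 1 x := by
  classical
  change (if decide (x ∈ a.1) = true then (1 : ℝ) else 0) = _
  by_cases h : x ∈ a.1 <;> simp [h]

def rad (m : ℕ) (x : ℕ → Bool) : ℝ := if x m then -1 else 1

lemma rad_meas (m : ℕ) : Measurable (rad m) :=
  (measurable_of_countable fun b : Bool => if b then (-1 : ℝ) else 1).comp (measurable_pi_apply m)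

lemma rad_norm (m : ℕ) (x : ℕ → Bool) : ‖rad m x‖ = 1 := by
  unfold rad; split_ifs <;> simp

lemma int_rad (m : ℕ) {a B : Set (ℕ → Bool)} (ha : MeasurableSet a) (hB : MeasurableSet B) :
    ∫ x in B, a.indicator 1 x * rad m x ∂lam = nu m (a ∩ B) := by
  have hV := fun b => ha.inter (V_clopen m b).isOpen.measurableSet
  have : ∀ x, a.indicator 1 x * rad m x = (a ∩ {x | x m = false}).indicator (fun _ => (1 : ℝ)) x -
      (a ∩ {x | x m = true}).indicator (fun _ => 1) x := fun x => by
    by_cases h : x ∈ a <;> cases h' : x m <;> simp [indicator, rad, h, h']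
  simp_rw [this]
  rw [integral_sub ((integrable_const _).indicator (hV _)) ((integrable_const _).indicator (hV _)),
    integral_indicator_const _ (hV _), integral_indicator_const _ (hV _),
    measureReal_restrict_apply (hV _), measureReal_restrict_apply (hV _), nu]
  simp [inter_right_comm a]

theorem not_groth {𝓑 : BooleanSubalgebra (Set (ℕ → Bool))} (h : PT 𝓑) (h0 : B0 ≤ 𝓑) :
    ¬ Groth 𝓑 := by
  intro hG
  have hm : ∀ a : 𝓑, MeasurableSet a.1 := fun a => br ▸ h.1 _ a.2
  have hUm : ∀ j, MeasurableSet (U j) := fun j => (At_clopen _ _).isOpen.measurableSet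
  have m1 : ∀ g ∈ Submodule.span ℝ (range (chi (A := 𝓑))), Measurable fun x => g (pt 𝓑 x) := by
    intro g hg
    induction hg using Submodule.span_induction with
    | mem x h => obtain ⟨a, rfl⟩ := h; simp_rw [chi_pt]; exact measurable_one.indicator (hm a)
    | zero => exact measurable_const
    | add x y _ _ a b => exact a.add b
    | smul c x _ a => exact a.const_smul c
  have m2 : ∀ f : BoundedContinuousFunction (St 𝓑) ℝ, Measurable fun x => f (pt 𝓑 x) := fun f => by
    choose g g1 g2 using fun n : ℕ => chi_dense f f.continuous (Nat.one_div_pos_of_nat (n := n))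
    refine measurable_of_tendsto_metrizable (fun n => m1 _ (g1 n)) (tendsto_pi_nhds.2 fun x => ?_)
    exact tendsto_iff_norm_sub_tendsto_zero.2 (squeeze_zero (fun _ => norm_nonneg _)
      (fun n => (g2 n _).le) tendsto_one_div_add_atTop_nhds_zero_nat)
  have hb : ∀ (f : BoundedContinuousFunction (St 𝓑) ℝ) m x, ‖f (pt 𝓑 x) * rad m x‖ ≤ ‖f‖ :=
    fun f m x => by rw [norm_mul, rad_norm, mul_one]; exact f.norm_coe_le_norm _
  have hi : ∀ (f : BoundedContinuousFunction (St 𝓑) ℝ) m j,
      Integrable (fun x => f (pt 𝓑 x) * rad m x) (lam.restrict (U j)) := fun f m j =>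
    Integrable.of_bound ((m2 f).mul (rad_meas m)).aestronglyMeasurable _
      (Eventually.of_forall (hb f m))
  let μ0 : ℕ → BoundedContinuousFunction (St 𝓑) ℝ →ₗ[ℝ] ℝ := fun j =>
    { toFun := fun f => M j * ∫ x in U j, f (pt 𝓑 x) * rad (M j) x ∂lam
      map_add' := fun f g => by
        rw [← mul_add, ← integral_add (hi f _ _) (hi g _ _)]; simp [add_mul]
      map_smul' := fun c f => by
        simp only [BoundedContinuousFunction.coe_smul, smul_eq_mul, mul_assoc, integral_const_mul,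
          RingHom.id_apply]; ring }
  have hμ0 : ∀ j f, ‖μ0 j f‖ ≤ 1 * ‖f‖ := fun j f => by
    have := norm_setIntegral_le_of_norm_le_const (μ := lam) (measure_lt_top _ (U j))
      fun x _ => hb f (M j) x
    change ‖(M j : ℝ) * _‖ ≤ _
    rw [norm_mul, Real.norm_natCast, ← M_mul j, mul_assoc, mul_comm (lam.real _)]
    gcongr
  let μ : ℕ → StrongDual ℝ (BoundedContinuousFunction (St 𝓑) ℝ) := fun j =>
    (μ0 j).mkContinuous 1 (hμ0 j)
  have hchi : ∀ j (a : 𝓑), μ j (BoundedContinuousFunction.mkOfCompact (chi a)) =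
      M j * nu (M j) (a.1 ∩ U j) := fun j a => by
    rw [← int_rad _ (hm a) (hUm j)]
    simp_rw [← chi_pt]; rfl
  have t1 : ∀ g ∈ Submodule.span ℝ (range (chi (A := 𝓑))),
      Tendsto (fun j => μ j (BoundedContinuousFunction.mkOfCompact g)) atTop (𝓝 0) := by
    intro g hg
    induction hg using Submodule.span_induction with
    | mem x hx => obtain ⟨a, rfl⟩ := hx; simp_rw [hchi]; exact nu_null h h0 a.2
    | zero => simp
    | add x y _ _ a b => simpa using a.add b
    | smul c x _ a =>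
      have e : BoundedContinuousFunction.mkOfCompact (c • x) =
        c • BoundedContinuousFunction.mkOfCompact x := rfl
      simpa [e] using a.const_mul c
  have t2 : ∀ f, Tendsto (fun j => μ j f) atTop (𝓝 ((0 : StrongDual ℝ _) f)) := fun f => by
    refine Metric.tendsto_nhds.2 fun ε hε => ?_
    obtain ⟨g, g1, g2⟩ := chi_dense f f.continuous (half_pos hε)
    filter_upwards [Metric.tendsto_nhds.1 (t1 g g1) _ (half_pos hε)] with j hj
    have h1 : ‖f - BoundedContinuousFunction.mkOfCompact g‖ ≤ ε / 2 :=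
      (BoundedContinuousFunction.norm_le (half_pos hε).le).2 fun p => by
        rw [← norm_neg]; simpa using (g2 p).le
    have h2 : ‖μ j (f - BoundedContinuousFunction.mkOfCompact g)‖ ≤ _ := hμ0 j _
    rw [map_sub] at h2
    rw [dist_zero_right] at hj
    simp only [zero_apply, dist_zero_right]
    linarith [norm_sub_norm_le (μ j f) (μ j (BoundedContinuousFunction.mkOfCompact g))]
  have hE : ∀ N : ℕ, IsClopen (⋃ j ∈ Iio N, U j ∩ {x | x (M j) = false}) := fun N =>
    (finite_Iio N).isClopen_biUnion fun j _ => (At_clopen _ _).inter (V_clopen _ _)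
  let y : ℕ → WeakDual ℝ (StrongDual ℝ (BoundedContinuousFunction (St 𝓑) ℝ)) := fun N =>
    StrongDual.toWeakDual (NormedSpace.inclusionInDoubleDual ℝ _
      (BoundedContinuousFunction.mkOfCompact (chi (⟨_, h.2.1 _ (hE N)⟩ : 𝓑))))
  obtain ⟨Φ, -, hΦ⟩ := (WeakDual.isCompact_closedBall (𝕜 := ℝ)
    (E := StrongDual ℝ (BoundedContinuousFunction (St 𝓑) ℝ)) 0 1).exists_mapClusterPt
    (f := atTop) (u := y)
    (tendsto_principal.2 (Eventually.of_forall fun N => by
      refine mem_closedBall_zero_iff.2 ((NormedSpace.double_dual_bound ℝ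
        (BoundedContinuousFunction (St 𝓑) ℝ) _).trans ?_)
      refine (BoundedContinuousFunction.norm_le zero_le_one).2 fun p => ?_
      simp only [chi, BoundedContinuousFunction.mkOfCompact_apply, ContinuousMap.coe_mk]
      split_ifs <;> simp))
  have hΦ2 : ∀ j, Φ (μ j) = 1 / 2 := fun j => by
    have h1 := hΦ.continuousAt_comp (WeakDual.eval_continuous (μ j)).continuousAt
    refine (isClosed_singleton.mem_of_mapClusterPt h1 ((eventually_gt_atTop j).mono fun N hN => ?_) :)
    change μ j _ = _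
    have e : (⋃ j ∈ Iio N, U j ∩ {x | x (M j) = false}) ∩ U j = U j ∩ {x | x (M j) = false} := by
      refine Subset.antisymm (fun x hx => ?_) fun x hx => ⟨mem_iUnion₂.2 ⟨j, hN, hx⟩, hx.1⟩
      obtain ⟨i, -, hi⟩ := mem_iUnion₂.1 hx.1
      exact U_disj hi.1 hx.2 ▸ hi
    have e2 : U j ∩ {x | x (M j) = false} = {x | ∀ i ∈ insert (M j) (Finset.range (4 ^ j + 1)),
        x i = decide (i = j)} := by
      have : M j ≠ j := ((le4 j).trans (M_gt j)).ne'
      ext x; simp [U, At, this, and_comm, Nat.lt_succ_iff]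
    have e3 : U j ∩ {x | x (M j) = false} ∩ {x | x (M j) = true} = ∅ := by
      ext x; simp
    rw [hchi, e, nu, e3, inter_assoc, inter_self, e2, cyl,
      Finset.card_insert_of_notMem (by simpa using M_gt j), Finset.card_range, pow_succ,
      ← lam_At (4 ^ j) fun i => decide (i = j), measureReal_empty, sub_zero, ← mul_assoc]
    exact (congrArg (· * (1 / 2 : ℝ)) (M_mul j)).trans (one_mul _)
  have := hG μ 0 t2 (WeakDual.toStrongDual Φ)
  simp only [WeakDual.coe_toStrongDual, hΦ2, map_zero] at this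
  simpa using tendsto_nhds_unique this tendsto_const_nhds

end Pool.Agent.H.MP_54cd88_an
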